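import Mathlib

set_option autoImplicit false

namespace Pool.Agent.Results.MP_5b767b_an.Counter

open Finset Filter Topology

abbrev Op (E : Type) [NormedAddCommGroup E] [NormedSpace ℂ E] : Type := E →L[ℂ] E

def app {E : Type} [NormedAddCommGroup E] [NormedSpace ℂ E] (H : Op E) (x : E) : E := H x

def spec {E : Type} [NormedAddCommGroup E] [NormedSpace ℂ E] (H : Op E) : Set ℂ := spectrum ℂ H

abbrev L2 (V : Type) : Type := lp (fun _ : V => ℂ) 2

def IsAdjOp {V : Type} (G : SimpleGraph V) (H : Op (L2 V)) : Prop :=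
  ∀ (f : L2 V) (v : V), app H f v = ∑ᶠ w ∈ G.neighborSet v, f w

def Amenable {V : Type} (G : SimpleGraph V) : Prop :=
  ∃ F : ℕ → Finset V, Monotone F ∧ (∀ k, (F k).Nonempty) ∧ (∀ v, ∃ k, v ∈ F k) ∧
    Tendsto (fun k => (({w | w ∉ F k ∧ ∃ v ∈ F k, G.Adj v w}.ncard : ℝ) / (F k).card))
      atTop (𝓝 0)

def Covers {V₁ V₂ : Type} (G₁ : SimpleGraph V₁) (G₂ : SimpleGraph V₂) (φ : V₁ → V₂) : Prop :=
  Function.Surjective φ ∧ ∀ v, Set.BijOn φ (G₁.neighborSet v) (G₂.neighborSet (φ v))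

theorem two_real : (2 : ENNReal).toReal = 2 := by norm_num

theorem schur_sum {V : Type} [DecidableEq V] (nb : V → Finset V)
    (hs : ∀ v w, w ∈ nb v → v ∈ nb w) (h : V → ℝ) (hp : ∀ v, 0 < h v) (c : ℝ) (hc : 0 ≤ c)
    (hh : ∀ v, ∑ w ∈ nb v, h w ≤ c * h v) (f : lp (fun _ : V => ℂ) 2) (s : Finset V) :
    ∑ v ∈ s, ‖∑ w ∈ nb v, f w‖ ^ (2 : ENNReal).toReal ≤ (c * ‖f‖) ^ (2 : ENNReal).toReal := by
  have key := lp.sum_rpow_le_norm_rpow (p := 2) (by norm_num) f (s.biUnion nb)
  simp only [two_real, Real.rpow_two] at key ⊢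
  have h1 : ∀ v, ‖∑ w ∈ nb v, f w‖ ^ 2 ≤ ∑ w ∈ nb v, c * h v * (‖f w‖ ^ 2 / h w) := by
    intro v
    have a1 : ‖∑ w ∈ nb v, f w‖ ≤ ∑ w ∈ nb v, ‖f w‖ := norm_sum_le _ _
    have a2 : (∑ w ∈ nb v, ‖f w‖) ^ 2 ≤ (∑ w ∈ nb v, h w) * ∑ w ∈ nb v, ‖f w‖ ^ 2 / h w := by
      refine sum_sq_le_sum_mul_sum_of_sq_le_mul _ (fun w _ => (hp w).le)
        (fun w _ => div_nonneg (sq_nonneg _) (hp w).le) fun w _ => le_of_eq ?_
      have := (hp w).ne'
      field_simp
    have a3 : 0 ≤ ∑ w ∈ nb v, ‖f w‖ ^ 2 / h w :=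
      sum_nonneg fun w _ => div_nonneg (sq_nonneg _) (hp w).le
    rw [← mul_sum]
    calc _ ≤ (∑ w ∈ nb v, ‖f w‖) ^ 2 := pow_le_pow_left₀ (norm_nonneg _) a1 2
      _ ≤ _ := a2
      _ ≤ _ := mul_le_mul_of_nonneg_right (hh v) a3
  calc ∑ v ∈ s, ‖∑ w ∈ nb v, f w‖ ^ 2
      ≤ ∑ v ∈ s, ∑ w ∈ nb v, c * h v * (‖f w‖ ^ 2 / h w) := sum_le_sum fun v _ => h1 v
    _ = ∑ w ∈ s.biUnion nb, ∑ v ∈ s.filter (fun v => w ∈ nb v),
          c * h v * (‖f w‖ ^ 2 / h w) := by
        refine sum_comm' fun v w => ?_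
        simp only [mem_filter, mem_biUnion]
        constructor
        · rintro ⟨a, b⟩
          exact ⟨⟨a, b⟩, v, a, b⟩
        · rintro ⟨⟨a, b⟩, -⟩
          exact ⟨a, b⟩
    _ ≤ ∑ w ∈ s.biUnion nb, c ^ 2 * ‖f w‖ ^ 2 := by
        refine sum_le_sum fun w _ => ?_
        have b1 : ∑ v ∈ s.filter (fun v => w ∈ nb v), h v ≤ c * h w := by
          refine le_trans (sum_le_sum_of_subset_of_nonneg ?_ fun v _ _ => (hp v).le) (hh w)
          intro v hv
          exact hs v w (mem_filter.mp hv).2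
        rw [← sum_mul, ← mul_sum]
        have := hp w
        calc _ ≤ c * (c * h w) * (‖f w‖ ^ 2 / h w) := by gcongr
          _ = _ := by field_simp
    _ ≤ _ := by
        rw [← mul_sum, mul_pow]
        gcongr

theorem schur {V : Type} [DecidableEq V] (nb : V → Finset V)
    (hs : ∀ v w, w ∈ nb v → v ∈ nb w) (h : V → ℝ) (hp : ∀ v, 0 < h v) (c : ℝ) (hc : 0 ≤ c)
    (hh : ∀ v, ∑ w ∈ nb v, h w ≤ c * h v) :
    ∃ H : lp (fun _ : V => ℂ) 2 →L[ℂ] lp (fun _ : V => ℂ) 2,
      (∀ f v, H f v = ∑ w ∈ nb v, f w) ∧ ‖H‖ ≤ c := by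
  let L : lp (fun _ : V => ℂ) 2 →ₗ[ℂ] lp (fun _ : V => ℂ) 2 :=
    { toFun := fun f => ⟨fun v => ∑ w ∈ nb v, f w, memℓp_gen' (schur_sum nb hs h hp c hc hh f)⟩
      map_add' := fun f g => by
        ext v
        simp [sum_add_distrib]
      map_smul' := fun a f => by
        ext v
        simp [mul_sum] }
  have hL : ∀ f, ‖L f‖ ≤ c * ‖f‖ := fun f =>
    lp.norm_le_of_forall_sum_le (by norm_num) (by positivity) (schur_sum nb hs h hp c hc hh f)
  exact ⟨L.mkContinuous c hL, fun f v => rfl, L.mkContinuous_norm_le hc hL⟩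

structure Inv (X : Type) where
  s : Fin 3 → X → X
  invol : ∀ a x, s a (s a x) = x
  ne : ∀ a x, s a x ≠ x
  inj : ∀ a b x, s a x = s b x → a = b

section
variable {X : Type} [DecidableEq X] (I : Inv X)

def nb : X × ℕ → Finset (X × ℕ)
  | (x, 0) => insert (x, 1) (univ.image fun a => (I.s a x, 0))
  | (x, n + 1) => {(x, n), (x, n + 2)}

theorem nb_symm (v w : X × ℕ) (h : w ∈ nb I v) : v ∈ nb I w := by
  obtain ⟨x, n⟩ := v
  cases n with
  | zero =>
    simp only [nb, mem_insert, mem_image, mem_univ, true_and] at h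
    rcases h with rfl | ⟨a, rfl⟩
    · simp [nb]
    · simp only [nb, mem_insert, mem_image, mem_univ, true_and]
      exact Or.inr ⟨a, by rw [I.invol]⟩
  | succ n =>
    simp only [nb, mem_insert, mem_singleton] at h
    rcases h with rfl | rfl
    · cases n <;> simp [nb]
    · simp [nb]

theorem nb_irrefl (v : X × ℕ) : v ∉ nb I v := by
  obtain ⟨x, n⟩ := v
  cases n with
  | zero => simpa [nb] using fun a => I.ne a x
  | succ n => simp [nb]

theorem sum_zero {M : Type} [AddCommMonoid M] (F : X × ℕ → M) (x : X) :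
    ∑ w ∈ nb I (x, 0), F w = F (x, 1) + ∑ a, F (I.s a x, 0) := by
  rw [nb, sum_insert (by simp), sum_image]
  intro a _ b _ h
  exact I.inj a b x (Prod.mk.inj h).1

theorem sum_succ {M : Type} [AddCommMonoid M] (F : X × ℕ → M) (x : X) (n : ℕ) :
    ∑ w ∈ nb I (x, n + 1), F w = F (x, n) + F (x, n + 2) := by
  rw [nb, sum_pair (by simp)]

theorem nb_card (v : X × ℕ) : (nb I v).card ≤ 4 := by
  obtain ⟨x, n⟩ := v
  rw [card_eq_sum_ones]
  cases n with
  | zero => rw [sum_zero]; simp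
  | succ n => rw [sum_succ]; simp

def G : SimpleGraph (X × ℕ) where
  Adj v w := w ∈ nb I v
  symm := ⟨fun v w h => nb_symm I v w h⟩
  loopless := ⟨fun v => nb_irrefl I v⟩

theorem G_nbr (v : X × ℕ) : (G I).neighborSet v = ↑(nb I v) := rfl

end

theorem bij {X Y : Type} [DecidableEq X] [DecidableEq Y] (I : Inv X) (J : Inv Y) (ψ : X → Y)
    (hψ : ∀ a x, ψ (I.s a x) = J.s a (ψ x)) (v : X × ℕ) :
    Set.BijOn (Prod.map ψ id) ((G I).neighborSet v) ((G J).neighborSet (Prod.map ψ id v)) := by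
  obtain ⟨x, n⟩ := v
  rw [G_nbr, G_nbr]
  have himg : (nb I (x, n)).image (Prod.map ψ id) = nb J (ψ x, n) := by
    cases n with
    | zero => simp [nb, image_image, Function.comp_def, hψ]
    | succ n => simp [nb]
  have hcard : (nb J (ψ x, n)).card = (nb I (x, n)).card := by
    rw [card_eq_sum_ones, card_eq_sum_ones]
    cases n with
    | zero => rw [sum_zero, sum_zero]
    | succ n => rw [sum_succ, sum_succ]
  have hinj : Set.InjOn (Prod.map ψ id) (nb I (x, n) : Set (X × ℕ)) :=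
    card_image_iff.mp (by rw [himg, hcard])
  have := hinj.bijOn_image
  rw [← coe_image, himg] at this
  exact this

abbrev T := {l : List (Fin 3) // l.IsChain (· ≠ ·)}

def st (a : Fin 3) : T → T
  | ⟨[], _⟩ => ⟨[a], by simp⟩
  | ⟨b :: t, h⟩ => if e : a = b then ⟨t, h.tail⟩ else ⟨a :: b :: t, by
      rw [List.isChain_cons_cons]; exact ⟨e, h⟩⟩

theorem st_nil (a : Fin 3) (h) : (st a ⟨[], h⟩).1 = [a] := rfl

theorem st_cons (a b : Fin 3) (t : List (Fin 3)) (h) :
    (st a ⟨b :: t, h⟩).1 = if a = b then t else a :: b :: t := by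
  by_cases e : a = b <;> simp [st, e]

def IT : Inv T where
  s := st
  invol := by
    rintro a ⟨l, h⟩
    apply Subtype.ext
    cases l with
    | nil => simp [st]
    | cons b t =>
      by_cases e : a = b
      · subst e
        cases t with
        | nil => simp [st]
        | cons c t =>
          have : a ≠ c := (List.isChain_cons_cons.mp h).1
          simp [st, this]
      · simp [st, e]
  ne := by
    rintro a ⟨l, h⟩ e
    have := congrArg (fun x : T => x.1.length) e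
    cases l with
    | nil => simp [st_nil] at this
    | cons b t =>
      simp only [st_cons] at this
      split_ifs at this <;> simp at this
  inj := by
    rintro a b ⟨l, h⟩ e
    have e' := congrArg Subtype.val e
    cases l with
    | nil => simpa [st_nil] using e'
    | cons c t =>
      simp only [st_cons] at e'
      have e2 := congrArg List.length e'
      split_ifs at e' e2 with h1 h2 h2
      · rw [h1, h2]
      · simp at e2; omega
      · simp at e2; omega
      · simpa using e'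

abbrev K := ZMod 2 × ZMod 2

def g : Fin 3 → K := ![(1, 0), (0, 1), (1, 1)]

def IK : Inv K where
  s a k := g a + k
  invol := by decide
  ne := by decide
  inj := by decide

def ψ (x : T) : K := (x.1.map g).sum

theorem ψ_st (a : Fin 3) (x : T) : ψ (IT.s a x) = IK.s a (ψ x) := by
  obtain ⟨l, h⟩ := x
  show ((st a ⟨l, h⟩).1.map g).sum = g a + (l.map g).sum
  cases l with
  | nil => simp [st_nil]
  | cons b t =>
    rw [st_cons]
    split_ifs with e
    · subst e
      exact (IK.invol a _).symm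
    · simp

def root : T := ⟨[], by simp⟩

theorem ψ_surj : Function.Surjective ψ := by
  intro k
  have : k = 0 ∨ ∃ a, k = g a := by revert k; decide
  rcases this with rfl | ⟨a, rfl⟩
  · exact ⟨root, rfl⟩
  · exact ⟨⟨[a], by simp⟩, by simp [ψ]⟩

theorem conn : (G IT).Connected := by
  have h0 : ∀ (l : List (Fin 3)) (h), (G IT).Reachable (root, 0) (⟨l, h⟩, 0) := by
    intro l
    induction l with
    | nil => intro h; rfl
    | cons a t ih =>
      intro h
      refine (ih h.tail).trans (SimpleGraph.Adj.reachable (SimpleGraph.Adj.symm ?_))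
      show _ ∈ nb IT (⟨a :: t, h⟩, 0)
      simp only [nb, mem_insert, mem_image, mem_univ, true_and]
      refine Or.inr ⟨a, ?_⟩
      congr 1
      apply Subtype.ext
      show (st a ⟨a :: t, h⟩).1 = t
      rw [st_cons, if_pos rfl]
  have h1 : ∀ (n : ℕ) (x : T), (G IT).Reachable (root, 0) (x, n) := by
    intro n
    induction n with
    | zero => intro x; exact h0 x.1 x.2
    | succ n ih =>
      intro x
      refine (ih x).trans (SimpleGraph.Adj.reachable (SimpleGraph.Adj.symm ?_))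
      show _ ∈ nb IT (x, n + 1)
      simp [nb]
  exact (SimpleGraph.connected_iff_exists_forall_reachable _).mpr
    ⟨(root, 0), fun v => h1 v.2 v.1⟩

noncomputable def B (k : ℕ) : Finset T :=
  ((List.finite_length_le (Fin 3) k).preimage
    (Subtype.val_injective (p := fun l : List (Fin 3) => l.IsChain (· ≠ ·))).injOn).toFinset

theorem mem_B (k : ℕ) (x : T) : x ∈ B k ↔ x.1.length ≤ k := by simp [B]

noncomputable def F (k : ℕ) : Finset (T × ℕ) := B k ×ˢ range (k + 1)

theorem bdry (k : ℕ) :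
    (({w | w ∉ F k ∧ ∃ v ∈ F k, (G IT).Adj v w}.ncard : ℝ) / (F k).card) ≤ 4 / ((k : ℝ) + 1) := by
  have hsub : {w | w ∉ F k ∧ ∃ v ∈ F k, (G IT).Adj v w} ⊆
      ↑((B k ×ˢ (univ : Finset (Fin 3))).image (fun p => (IT.s p.2 p.1, 0)) ∪
        (B k).image (fun x => (x, k + 1))) := by
    rintro w ⟨hw, ⟨x, n⟩, hv, hadj⟩
    have hadj' : w ∈ nb IT (x, n) := hadj
    simp only [F, mem_product, mem_range] at hv hw
    rw [mem_coe, mem_union, mem_image, mem_image]
    cases n with
    | zero =>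
      simp only [nb, mem_insert, mem_image, mem_univ, true_and] at hadj'
      rcases hadj' with rfl | ⟨a, rfl⟩
      · refine Or.inr ⟨x, hv.1, ?_⟩
        have : ¬ (1 < k + 1) := fun h => hw ⟨hv.1, h⟩
        congr 1
        omega
      · exact Or.inl ⟨(x, a), by simpa using hv.1, rfl⟩
    | succ n =>
      simp only [nb, mem_insert, mem_singleton] at hadj'
      have := hv.2
      rcases hadj' with rfl | rfl
      · exact absurd ⟨hv.1, by dsimp only at this ⊢; omega⟩ hw
      · refine Or.inr ⟨x, hv.1, ?_⟩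
        have h2 : ¬ (n + 2 < k + 1) := fun h => hw ⟨hv.1, h⟩
        congr 1
        omega
  have h1 := Set.ncard_le_ncard hsub (finite_toSet _)
  rw [Set.ncard_coe_finset] at h1
  have h2 := h1.trans ((card_union_le _ _).trans (add_le_add card_image_le card_image_le))
  have hpos : 0 < (B k).card := card_pos.mpr ⟨root, by simp [mem_B, root]⟩
  have hposR : (0 : ℝ) < (B k).card := by exact_mod_cast hpos
  rw [card_product, card_univ, Fintype.card_fin] at h2
  have h3 : (({w | w ∉ F k ∧ ∃ v ∈ F k, (G IT).Adj v w}.ncard : ℕ) : ℝ) ≤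
      (B k).card * 3 + (B k).card := by exact_mod_cast h2
  have h4 : ((F k).card : ℝ) = (B k).card * (k + 1) := by simp [F]
  rw [h4, div_le_div_iff₀ (by positivity) (by positivity)]
  have : (0 : ℝ) < (k : ℝ) + 1 := by positivity
  nlinarith

noncomputable def h1 (v : T × ℕ) : ℝ := (2 / 3) ^ v.1.1.length * (2 / 5) ^ v.2

theorem h1_le (v : T × ℕ) : ∑ w ∈ nb IT v, h1 w ≤ 13 / 4 * h1 v := by
  obtain ⟨⟨l, h⟩, n⟩ := v
  cases n with
  | zero =>
    rw [sum_zero]
    cases l with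
    | nil =>
      simp only [h1, IT, st_nil]
      norm_num
    | cons b t =>
      simp only [h1, IT, st_cons, Fin.sum_univ_three]
      have : (0 : ℝ) < (2 / 3) ^ t.length := by positivity
      fin_cases b <;> simp [pow_succ] <;> linarith
  | succ n =>
    rw [sum_succ]
    simp only [h1, pow_succ]
    have : (0 : ℝ) < (2 / 3) ^ l.length * (2 / 5) ^ n := by positivity
    nlinarith

theorem eig_mem : Memℓp (fun v : K × ℕ => ((1 / 3 : ℂ)) ^ v.2) 2 := by
  apply memℓp_gen
  simp only [two_real, Real.rpow_two]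
  have h : Summable fun v : K × ℕ => (1 : ℝ) * ((1 / 9 : ℝ)) ^ v.2 :=
    Summable.mul_of_nonneg (f := fun _ : K => (1 : ℝ)) (Summable.of_finite)
      (summable_geometric_of_lt_one (by norm_num) (by norm_num)) (fun _ => zero_le_one)
      (fun n => by positivity)
  refine h.congr fun v => ?_
  rw [norm_pow, ← pow_mul, mul_comm v.2 2, pow_mul]
  norm_num

theorem result : ∃ (V₁ V₂ : Type) (G₁ : SimpleGraph V₁) (G₂ : SimpleGraph V₂) (φ : V₁ → V₂)
    (H₁ : Op (L2 V₁)) (H₂ : Op (L2 V₂)), G₁.Connected ∧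
    (∀ v, (G₁.neighborSet v).encard ≤ 4) ∧ (∀ v, (G₂.neighborSet v).encard ≤ 4) ∧
    Amenable G₁ ∧ Covers G₁ G₂ φ ∧ IsAdjOp G₁ H₁ ∧ IsAdjOp G₂ H₂ ∧
    ∃ z : ℂ, z ∈ spec H₂ ∧ z ∉ spec H₁ := by
  obtain ⟨H₁, hH₁, hn⟩ := schur (nb IT) (nb_symm IT) h1 (fun v => by unfold h1; positivity)
    (13 / 4) (by norm_num) h1_le
  obtain ⟨H₂, hH₂, -⟩ := schur (nb IK) (nb_symm IK) (fun _ => 1) (fun _ => one_pos)
    4 (by norm_num) (fun v => by simpa using (by exact_mod_cast nb_card IK v))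
  refine ⟨T × ℕ, K × ℕ, G IT, G IK, Prod.map ψ id, H₁, H₂, conn, fun v => ?_, fun v => ?_,
    ⟨F, ?_, ?_, ?_, ?_⟩, ⟨ψ_surj.prodMap Function.surjective_id, bij IT IK ψ ψ_st⟩, fun f v => ?_,
    fun f v => ?_, 10 / 3, ?_, ?_⟩
  · rw [G_nbr, Set.encard_coe_eq_coe_finsetCard]
    exact_mod_cast nb_card IT v
  · rw [G_nbr, Set.encard_coe_eq_coe_finsetCard]
    exact_mod_cast nb_card IK v
  · intro a b hab v hv
    simp only [F, mem_product, mem_range, mem_B] at hv ⊢
    omega
  · intro k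
    exact ⟨(root, 0), by simp [F, mem_B, root]⟩
  · intro v
    refine ⟨v.1.1.length + v.2, ?_⟩
    simp only [F, mem_product, mem_range, mem_B]
    omega
  · refine squeeze_zero (fun k => by positivity) bdry ?_
    exact tendsto_const_nhds.div_atTop (tendsto_atTop_add_const_right _ _ tendsto_natCast_atTop_atTop)
  · rw [app, hH₁, G_nbr, finsum_mem_coe_finset]
  · rw [app, hH₂, G_nbr, finsum_mem_coe_finset]
  · rw [spec, spectrum.mem_iff]
    intro hu
    let e : lp (fun _ : K × ℕ => ℂ) 2 := ⟨_, eig_mem⟩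
    have he : ∀ v, e v = (1 / 3 : ℂ) ^ v.2 := fun v => rfl
    have h0 : (algebraMap ℂ _ (10 / 3 : ℂ) - H₂) e = 0 := by
      ext ⟨x, n⟩
      rw [Algebra.algebraMap_eq_smul_one]
      show (10 / 3 : ℂ) * e (x, n) - H₂ e (x, n) = 0
      rw [hH₂]
      cases n with
      | zero => rw [sum_zero]; simp only [he]; norm_num
      | succ n => rw [sum_succ]; simp only [he, pow_succ]; ring
    have hinj := (ContinuousLinearMap.isUnit_iff_bijective.mp hu).1
    have : e = 0 := hinj (by rw [h0, map_zero])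
    have h2 := he (0, 0)
    rw [this] at h2
    simp at h2
  · intro hz
    have h2 := spectrum.norm_le_norm_mul_of_mem (show (10 / 3 : ℂ) ∈ spectrum ℂ H₁ from hz)
    have h3 : ‖(1 : lp (fun _ : T × ℕ => ℂ) 2 →L[ℂ] lp (fun _ : T × ℕ => ℂ) 2)‖ ≤ 1 :=
      ContinuousLinearMap.norm_id_le
    have h4 : ‖(10 / 3 : ℂ)‖ = 10 / 3 := by simp
    have h5 := norm_nonneg H₁
    nlinarith

end Pool.Agent.Results.MP_5b767b_an.Counter
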